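import Pool.Agent.H32.N6W.Targets
import Pool.Agent.H50.N6E.ERTH
import Pool.Agent.H43.N6E.EFIN

/-!
# Row DCO: every factor over the completion has a place
-/

set_option autoImplicit false

open Polynomial NumberField IsDedekindDomain Matrix Pool.Agent.H32.QC Pool.Agent.H34.N6
open Pool.Agent.H13.DEV Pool.Agent.H34.N6V Pool.Agent.H63.WT Pool.Agent.H32.N6W

namespace Pool.Agent.H34.N6W

theorem up_of_under {k L : Type} [Field k] [NumberField k] [Field L] [NumberField L]
    [Algebra k L] (v : FPl k) (w : FPl L) (h : w.under (𝓞 k) = v) :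
    ∃ φ : v.adicCompletion k →+* w.adicCompletion L, Continuous φ ∧
      ∀ x : k, φ (ic v x) = kc k w x := by
  subst h
  exact exists_up w

/-- a linear form in finitely many variables is small near zero -/
theorem small_near {F E : Type} [NormedField F] [NormedField E] (φ : F →+* E)
    (hφ : Continuous φ) (N : ℕ) (t : ℕ → E) : ∃ δ : ℝ, 0 < δ ∧ ∀ ε : ℕ → F,
    (∀ i, i < N → ‖ε i‖ < δ) → ‖∑ i ∈ Finset.range N, φ (ε i) * t i‖ ≤ 1 := by
  have h1 : Continuous fun ε : Fin N → F => ∑ i : Fin N, φ (ε i) * t i :=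
    continuous_finsetSum _ fun i _ => (hφ.comp (continuous_apply i)).mul continuous_const
  have h2 := (Metric.continuous_iff.1 h1) 0 1 one_pos
  obtain ⟨δ, hδ, h⟩ := h2
  refine ⟨δ, hδ, fun ε hε => ?_⟩
  have h3 := h (fun i => ε i) (by
    rw [dist_zero_right, pi_norm_lt_iff hδ]
    exact fun i => hε i i.2)
  rw [dist_eq_norm] at h3
  have h4 : ∑ i : Fin N, φ ((0 : Fin N → F) i) * t i = 0 :=
    Finset.sum_eq_zero fun i _ => by rw [Pi.zero_apply, map_zero, zero_mul]
  rw [h4, sub_zero] at h3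
  rw [Finset.sum_range]
  exact h3.le

theorem exists_pos_le' {ι : Type} [Finite ι] (f : ι → ℝ) (hf : ∀ i, 0 < f i) :
    ∃ ε : ℝ, 0 < ε ∧ ∀ i, ε ≤ f i := by
  rcases isEmpty_or_nonempty ι with h | h
  · exact ⟨1, one_pos, fun i => (h.false i).elim⟩
  · obtain ⟨i, hi⟩ := Finite.exists_min f
    exact ⟨f i, hf i, hi⟩

theorem pf_DCO (hTRI : T_TRI) : T_DCO := by
  classical
  intro k L _ _ _ _ _ P e v q r hP hG hq hr hqr H
  by_contra hr1
  have hCZ : CharZero (v.adicCompletion k) :=
    charZero_of_injective_algebraMap (algebraMap k (v.adicCompletion k)).injective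
  have hint : IsIntegral k e := by
    by_contra h
    have h1 := minpoly.eq_zero h
    rw [hG.mp] at h1
    exact hP.ne_zero h1
  have hirr : Irreducible P := hG.mp ▸ minpoly.irreducible hint
  have hPe : aeval e P = 0 := hG.mp ▸ minpoly.aeval k e
  have hcop : IsCoprime q r := by
    have h1 : (P.map (ic v)).Separable := hirr.separable.map
    rw [hqr] at h1
    exact h1.isCoprime
  obtain ⟨a, b, hab⟩ := hcop
  have hrd : r.degree ≠ 0 := by
    intro h
    exact hr1 (eq_one_of_monic_natDegree_zero hr (natDegree_eq_of_degree_eq_some h))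
  -- the algebraic closure
  let Ω := AlgebraicClosure (v.adicCompletion k)
  let val : (v.adicCompletion k)[X] → (L →ₐ[k] Ω) → Ω := fun h σ =>
    eval₂ (algebraMap (v.adicCompletion k) Ω) (σ e) h
  have hkΩ : ∀ x : k, algebraMap k Ω x = algebraMap (v.adicCompletion k) Ω (ic v x) := fun x =>
    IsScalarTower.algebraMap_apply k (v.adicCompletion k) Ω x
  have hPv : ∀ σ, val (P.map (ic v)) σ = 0 := by
    intro σ
    change eval₂ _ _ _ = 0
    rw [eval₂_map]
    have h1 : (algebraMap (v.adicCompletion k) Ω).comp (ic v) = algebraMap k Ω :=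
      RingHom.ext fun x => (hkΩ x).symm
    rw [h1, ← aeval_def, Polynomial.aeval_algHom_apply, hPe, map_zero]
  -- an embedding for a root of `r`
  obtain ⟨ρ, hρ⟩ : ∃ ρ : Ω, eval₂ (algebraMap (v.adicCompletion k) Ω) ρ r = 0 :=
    IsAlgClosed.exists_eval₂_eq_zero _ _ hrd
  obtain ⟨f, hf, hf2⟩ := Pool.Agent.H50.N6E.pf_RTH k L P e hP hG Ω (algebraMap k Ω) ρ (by
    have h1 : eval₂ (algebraMap (v.adicCompletion k) Ω) ρ (P.map (ic v)) = 0 := by
      rw [hqr, eval₂_mul, hρ, mul_zero]
    rw [eval₂_map] at h1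
    have h2 : (algebraMap (v.adicCompletion k) Ω).comp (ic v) = algebraMap k Ω :=
      RingHom.ext fun x => (hkΩ x).symm
    rw [h2] at h1
    exact h1)
  let σ₀ : L →ₐ[k] Ω := { f with commutes' := hf2 }
  have hσ₀ : val r σ₀ = 0 := by
    change eval₂ _ (f e) r = 0
    rw [hf]; exact hρ
  set d : ℕ := (Finset.univ.filter fun σ : L →ₐ[k] Ω => val r σ = 0).card with hd
  have hd0 : d ≠ 0 := by
    rw [hd, Finset.card_ne_zero]
    exact ⟨σ₀, by rw [Finset.mem_filter]; exact ⟨Finset.mem_univ _, hσ₀⟩⟩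
  -- the trace
  set N := P.natDegree with hN
  have hNpos : 0 < N := hirr.natDegree_pos
  let t : ℕ → v.adicCompletion k := fun i => ic v (Algebra.trace k L (e ^ i))
  have htr : ∀ h : (v.adicCompletion k)[X], h.natDegree < N →
      algebraMap (v.adicCompletion k) Ω (∑ i ∈ Finset.range N, h.coeff i * t i) =
        ∑ σ, val h σ := by
    intro h hh
    have h1 : ∀ σ : L →ₐ[k] Ω, val h σ = ∑ i ∈ Finset.range N,
        algebraMap (v.adicCompletion k) Ω (h.coeff i) * σ (e ^ i) := by
      intro σ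
      change eval₂ _ _ _ = _
      rw [eval₂_eq_sum_range' _ hh]
      exact Finset.sum_congr rfl fun i _ => by rw [map_pow]
    rw [Finset.sum_congr rfl fun σ _ => h1 σ, Finset.sum_comm, map_sum]
    refine Finset.sum_congr rfl fun i _ => ?_
    rw [map_mul, ← Finset.mul_sum, ← trace_eq_sum_embeddings Ω, hkΩ]
  -- the constant
  obtain ⟨p, hp0, hp1⟩ := exists_small v
  have hp2 : 1 < ‖p⁻¹‖ := by
    rw [norm_inv]; exact (one_lt_inv₀ (norm_pos_iff.2 hp0)).2 hp1
  obtain ⟨n, hn⟩ := pow_unbounded_of_one_lt 2 hp2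
  have hdK : (d : v.adicCompletion k) ≠ 0 := Nat.cast_ne_zero.2 hd0
  let c : v.adicCompletion k := (p⁻¹) ^ n * (d : v.adicCompletion k)⁻¹
  have hcd : c * d = (p⁻¹) ^ n := by
    change (p⁻¹) ^ n * (d : v.adicCompletion k)⁻¹ * d = _
    rw [mul_assoc, inv_mul_cancel₀ hdK, mul_one]
  set PV : (v.adicCompletion k)[X] := P.map (ic v) with hPV
  have hPVm : PV.Monic := hP.map _
  have hPVd : PV.natDegree = N := hP.natDegree_map _
  have hPV1 : PV ≠ 1 := by
    intro h
    rw [h, natDegree_one] at hPVd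
    omega
  set h : (v.adicCompletion k)[X] := (C c * (a * q)) %ₘ PV with hh
  have hhd : h.natDegree < N := by
    rw [← hPVd]
    exact natDegree_modByMonic_lt _ hPVm hPV1
  have hhe : h = C c * (a * q) - PV * ((C c * (a * q)) /ₘ PV) := by
    rw [hh, modByMonic_eq_sub_mul_div]
  have hvalh : ∀ σ, val h σ = if val r σ = 0 then algebraMap (v.adicCompletion k) Ω c else 0 := by
    intro σ
    have h1 : val h σ = algebraMap (v.adicCompletion k) Ω c * (val a σ * val q σ) := by
      change eval₂ _ _ _ = _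
      have h2 : eval₂ (algebraMap (v.adicCompletion k) Ω) (σ e) PV = 0 := hPv σ
      rw [hhe, eval₂_sub, eval₂_mul, eval₂_mul, eval₂_mul, eval₂_C, h2, zero_mul, sub_zero]
    have h3 : val a σ * val q σ + val b σ * val r σ = 1 := by
      have h4 := congrArg (eval₂ (algebraMap (v.adicCompletion k) Ω) (σ e)) hab
      rw [eval₂_add, eval₂_mul, eval₂_mul, eval₂_one] at h4
      exact h4
    have h5 : val q σ * val r σ = 0 := by
      have h6 := hPv σ
      change eval₂ _ _ PV = 0 at h6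
      rw [hqr, eval₂_mul] at h6
      exact h6
    by_cases h7 : val r σ = 0
    · rw [if_pos h7, h1]
      rw [h7, mul_zero, add_zero] at h3
      rw [h3, mul_one]
    · rw [if_neg h7, h1]
      rcases mul_eq_zero.1 h5 with h8 | h8
      · rw [h8, mul_zero, mul_zero]
      · exact absurd h8 h7
  have hTh : ∑ i ∈ Finset.range N, h.coeff i * t i = c * d := by
    apply (algebraMap (v.adicCompletion k) Ω).injective
    rw [htr h hhd, Finset.sum_congr rfl fun σ _ => hvalh σ, ← Finset.sum_filter,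
      Finset.sum_const, ← hd, nsmul_eq_mul, map_mul (algebraMap (v.adicCompletion k) Ω) c
        (d : v.adicCompletion k), map_natCast, mul_comm]
  -- closeness
  have hW : {w : FPl L | w.under (𝓞 k) = v}.Finite := by
    have h1 := (Pool.Agent.H43.N6E.pf_FIN k L).1 (Sum.inl v)
    have h2 := h1.preimage (f := (Sum.inl : FPl L → Pl L)) Sum.inl_injective.injOn
    refine h2.subset fun w hw => ?_
    change bel (k := k) (Sum.inl w : Pl L) = Sum.inl v
    exact congrArg Sum.inl hw
  have hWf : Finite {w : FPl L // w.under (𝓞 k) = v} := hW.to_subtype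
  choose φ hφc hφ using fun w : {w : FPl L // w.under (𝓞 k) = v} => up_of_under v w.1 w.2
  choose δ hδ hδ2 using fun w : {w : FPl L // w.under (𝓞 k) = v} =>
    small_near (φ w) (hφc w) N fun i => (ic w.1 e) ^ i
  obtain ⟨δ₁, hδ₁, hδ₁'⟩ := exists_pos_le' δ hδ
  obtain ⟨δ₂, hδ₂, hδ₂'⟩ := small_near (RingHom.id (v.adicCompletion k)) continuous_id N t
  have hdense := HeightOneSpectrum.denseRange_algebraMap k v
  choose y hy using fun i : ℕ => hdense.exists_dist_lt (h.coeff i) (lt_min hδ₁ hδ₂)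
  let Y : L := ∑ i ∈ Finset.range N, algebraMap k L (y i) * e ^ i
  have hYw : ∀ w : FPl L, w.under (𝓞 k) = v → ‖ic w Y‖ ≤ 1 := by
    intro w hw
    have h1 : ic w Y = ∑ i ∈ Finset.range N,
        φ ⟨w, hw⟩ (ic v (y i) - h.coeff i) * (ic w e) ^ i := by
      have h2 : eval₂ (φ ⟨w, hw⟩) (ic w e) h = 0 := by
        have h3 := H w (φ ⟨w, hw⟩) hw (hφc ⟨w, hw⟩) (hφ ⟨w, hw⟩)
        rw [hhe, eval₂_sub, eval₂_mul, eval₂_mul, eval₂_mul, h3, mul_zero, mul_zero, zero_sub,
          hqr, eval₂_mul, h3, zero_mul, zero_mul, neg_zero]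
      rw [eval₂_eq_sum_range' _ hhd] at h2
      have h4 : ic w Y = ∑ i ∈ Finset.range N, φ ⟨w, hw⟩ (ic v (y i)) * (ic w e) ^ i := by
        change ic w (∑ i ∈ Finset.range N, algebraMap k L (y i) * e ^ i) = _
        rw [map_sum]
        refine Finset.sum_congr rfl fun i _ => ?_
        rw [map_mul, map_pow, hφ ⟨w, hw⟩]
        rfl
      rw [h4, ← sub_zero (∑ i ∈ Finset.range N, φ ⟨w, hw⟩ (ic v (y i)) * (ic w e) ^ i), ← h2,
        ← Finset.sum_sub_distrib]
      refine Finset.sum_congr rfl fun i _ => ?_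
      rw [map_sub, sub_mul]
    rw [h1]
    refine hδ2 ⟨w, hw⟩ (fun i => ic v (y i) - h.coeff i) fun i _ => ?_
    have h5 := hy i
    rw [dist_comm, dist_eq_norm] at h5
    exact lt_of_lt_of_le h5 ((min_le_left _ _).trans (hδ₁' ⟨w, hw⟩))
  have htrY := hTRI k L v Y hYw
  have h6 : ic v (Algebra.trace k L Y) = ∑ i ∈ Finset.range N, ic v (y i) * t i := by
    change ic v (Algebra.trace k L (∑ i ∈ Finset.range N, algebraMap k L (y i) * e ^ i)) = _
    rw [map_sum, map_sum]
    refine Finset.sum_congr rfl fun i _ => ?_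
    rw [← Algebra.smul_def, map_smul, smul_eq_mul, map_mul]
  have h7 : ‖∑ i ∈ Finset.range N, (ic v (y i) - h.coeff i) * t i‖ ≤ 1 := by
    refine hδ₂' (fun i => ic v (y i) - h.coeff i) fun i _ => ?_
    have h5 := hy i
    rw [dist_comm, dist_eq_norm] at h5
    exact lt_of_lt_of_le h5 (min_le_right _ _)
  have h8 : c * d = ic v (Algebra.trace k L Y) -
      ∑ i ∈ Finset.range N, (ic v (y i) - h.coeff i) * t i := by
    rw [h6, ← hTh, ← Finset.sum_sub_distrib]
    refine Finset.sum_congr rfl fun i _ => ?_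
    ring
  have h9 : ‖c * (d : v.adicCompletion k)‖ ≤ 2 := by
    rw [h8]
    refine (norm_sub_le _ _).trans ?_
    linarith
  rw [hcd, norm_pow] at h9
  exact absurd hn (not_lt.2 h9)

end Pool.Agent.H34.N6W
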