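import Pool.Agent.H32.N6W.Targets
import Pool.Agent.H65.N6P.LFM

/-!
# Row PCF: packaging of the local polynomials at a finite place
-/

set_option autoImplicit false

open Polynomial NumberField IsDedekindDomain Matrix Pool.Agent.H32.QC Pool.Agent.H34.N6
open Pool.Agent.H13.DEV Pool.Agent.H34.N6V Pool.Agent.H63.WT Pool.Agent.H32.N6W
open Pool.Agent.H65.N6P

namespace Pool.Agent.H34.N6W

theorem exists_pos_le {ι : Type} [Finite ι] (f : ι → ℝ) (hf : ∀ i, 0 < f i) :
    ∃ ε : ℝ, 0 < ε ∧ ∀ i, ε ≤ f i := by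
  rcases isEmpty_or_nonempty ι with h | h
  · exact ⟨1, one_pos, fun i => (h.false i).elim⟩
  · obtain ⟨i, hi⟩ := Finite.exists_min f
    exact ⟨f i, hf i, hi⟩

/-- a power of a sign with odd exponent -/
theorem pow_sign {x : ℤ} (hx : x = 1 ∨ x = -1) {m : ℕ} (hm : Odd m) : x ^ m = x := by
  rcases hx with rfl | rfl
  · exact one_pow m
  · exact hm.neg_one_pow

theorem pf_PCF (hADC : Pool.Agent.H32.QC.T_ADC) (hNEA : T_NEA) (hOPS : T_OPS) (hAPF : T_APF)
    (hUPS : T_UPS) (hADF : T_ADF) (hHPC : T_HPC) (hTHM : T_THM) : T_PCF := by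
  classical
  intro k ι _ _ _ L _ _ _ P D Pj e v x hP h7 hsep hPD hPj hAtt
  obtain ⟨n, A, hn, hA, hx⟩ := hAtt
  obtain ⟨hprop, hchar, x0, hx0⟩ := hADC k v
  let nn : NontriviallyNormedField (v.adicCompletion k) :=
    { (inferInstance : NormedField (v.adicCompletion k)) with non_trivial := ⟨x0, hx0⟩ }
  obtain ⟨p, hp0, hp1⟩ := exists_small v
  have hp0' : 0 < ‖p‖ := norm_pos_iff.2 hp0
  set Pv : (v.adicCompletion k)[X] := P.map (ic v) with hPv
  set Dv : (v.adicCompletion k)[X] := D.map (ic v) with hDv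
  have hPvm : Pv.Monic := hP.map _
  have hPv7 : Pv.natDegree = 7 := by rw [hPv, hP.natDegree_map, h7]
  have hPDv : IsCoprime Pv Dv := hPD.map (Polynomial.mapRingHom (ic v))
  -- values at the `e j`
  have hev : ∀ (j : ι) (F : k[X]), IsCoprime F P → aeval (e j) F ≠ 0 := by
    intro j F hF h0
    obtain ⟨a, b, hab⟩ := hF.of_isCoprime_of_dvd_right (hPj j).2.2
    have h1 := congrArg (aeval (e j)) hab
    have h2 : aeval (e j) (Pj j) = 0 := by
      rw [← (hPj j).2.1.mp]; exact minpoly.aeval _ _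
    rw [map_add, map_mul, map_mul, h0, h2, mul_zero, mul_zero, add_zero, map_one] at h1
    exact zero_ne_one h1
  have heD : ∀ j, aeval (e j) D ≠ 0 := fun j => hev j D hPD.symm
  -- polynomials near `A i`
  choose m₁ hm₁ using fun i =>
    hOPS (v.adicCompletion k) p Pv Dv (A i) hp0' hp1 hPvm hPv7 hPDv (hA i).mon (hA i).cop
  choose ε₁ hε₁ hn₁ using fun i =>
    hNEA (v.adicCompletion k) p (A i) hp0' hp1 (hA i).mon (hA i).sep (m₁ i)
  choose ε₀ hε₀ hn₀ using fun (i : Fin n) (j : ι) =>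
    hHPC k (L j) (Pj j) D (e j) v (A i) (hPj j).1 (hPj j).2.1
      (hPD.of_isCoprime_of_dvd_left (hPj j).2.2)
      ((hA i).cop.of_isCoprime_of_dvd_right
        (Polynomial.map_dvd (ic v) (hPj j).2.2))
  choose ε₂ hε₂ hε₂' using fun i : Fin n => exists_pos_le (ε₀ i) (hε₀ i)
  -- the degree
  have hodd : Odd (∑ i, (A i).natDegree) := by
    rw [Finset.odd_sum_iff_odd_card_odd]
    have h1 : Finset.univ.filter (fun i => Odd (A i).natDegree) = Finset.univ := by
      rw [Finset.filter_eq_self]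
      exact fun i _ => (hA i).odd
    rw [h1, Finset.card_univ, Fintype.card_fin]
    exact hn
  refine ⟨∑ i, (A i).natDegree, hodd, fun m hm => ?_⟩
  obtain ⟨B, hB, hGs, hGP⟩ := hAPF k (v.adicCompletion k) (ic v)
    (HeightOneSpectrum.denseRange_algebraMap k v) P n m A (fun i => min (ε₁ i) (ε₂ i))
    hP.ne_zero (fun i => ⟨(hA i).mon, (hA i).odd.pos, lt_min (hε₁ i) (hε₂ i)⟩)
  set G : k[X] := ∏ i, ∏ j, B i j with hG
  have hGm : G.Monic := Polynomial.monic_prod_of_monic _ _ fun i _ =>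
    Polynomial.monic_prod_of_monic _ _ fun j _ => (hB i j).1
  have hGd : G.natDegree = (∑ i, (A i).natDegree) * m := by
    rw [hG, Polynomial.natDegree_prod_of_monic _ _ fun i _ =>
      Polynomial.monic_prod_of_monic _ _ fun j _ => (hB i j).1, Finset.sum_mul]
    exact Finset.sum_congr rfl fun i _ =>
      natDegree_prod_eq (fun j => (hB i j).1) fun j => (hB i j).2.1
  have hBG : ∀ i j, B i j ∣ G := fun i j =>
    (Finset.dvd_prod_of_mem (B i) (Finset.mem_univ j)).trans
      (Finset.dvd_prod_of_mem (fun i => ∏ j, B i j) (Finset.mem_univ i))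
  have hBP : ∀ i j, IsCoprime (B i j) P := fun i j => hGP.of_isCoprime_of_dvd_left (hBG i j)
  set Gv : (v.adicCompletion k)[X] := G.map (ic v) with hGv
  have hGvm : Gv.Monic := hGm.map _
  have hGvP : IsCoprime Gv Pv := hGP.map (Polynomial.mapRingHom (ic v))
  obtain ⟨m₂, hm₂⟩ := hOPS (v.adicCompletion k) p Pv Dv Gv hp0' hp1 hPvm hPv7 hPDv hGvm hGvP
  obtain ⟨ε₃, hε₃, hn₃⟩ := hNEA (v.adicCompletion k) p Gv hp0' hp1 hGvm hGs.map m₂
  refine ⟨G, ε₃, hε₃, hGm, hGd, hGP, ?_, ?_⟩
  · intro G' hG'm hG'd hG'c K _ _ _ w hw θ _ hθ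
    cases w with
    | inr ψ => exact absurd hw (by simp [bel])
    | inl w =>
      have hwv : w.under (𝓞 k) = v := Sum.inl.inj hw
      subst hwv
      obtain ⟨φ, hφc, hφ⟩ := exists_up (k := k) w
      have hE : Ext p φ := ext_of_cont φ hφc hp0 hp1
      have hcomp : φ.comp (ic (w.under (𝓞 k))) = (ic w).comp (algebraMap k K) := RingHom.ext hφ
      have hroot : eval₂ φ (ic w θ) (G'.map (ic (w.under (𝓞 k)))) = 0 := by
        rw [eval₂_map, hcomp, ← Polynomial.hom_eval₂, ← aeval_def, hθ, map_zero]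
      have hclose : ∀ i, ‖(G'.map (ic (w.under (𝓞 k))) - Gv).coeff i‖ < ε₃ := by
        intro i
        rw [hGv, ← Polynomial.map_sub, coeff_map]
        exact hG'c i
      obtain ⟨θ', hθ', hd⟩ := hn₃ (G'.map (ic (w.under (𝓞 k)))) (hG'm.map _) (by
        rw [hG'm.natDegree_map, hG'd, hGv, hGm.natDegree_map, hGd]) hclose
        (w.adicCompletion K) φ hE (ic w θ) hroot
      -- the root of `G` is split
      have hsplit' : TI (ft (Pv.map φ) (Dv.map φ) θ') 3 := by
        have h1 : eval₂ φ θ' Gv =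
            ∏ i, ∏ j, eval₂ φ θ' ((B i j).map (ic (w.under (𝓞 k)))) := by
          rw [hGv, hG, Polynomial.map_prod, ← Polynomial.coe_eval₂RingHom, map_prod]
          refine Finset.prod_congr rfl fun i _ => ?_
          rw [Polynomial.map_prod, map_prod]
        rw [h1] at hθ'
        obtain ⟨i, -, hi⟩ := Finset.prod_eq_zero_iff.1 hθ'
        obtain ⟨j, -, hj⟩ := Finset.prod_eq_zero_iff.1 hi
        obtain ⟨θ'', hθ'', hd'⟩ := hn₁ i _ ((hB i j).1.map _)
          (by rw [(hB i j).1.natDegree_map, (hB i j).2.1])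
          (fun l => lt_of_lt_of_le ((hB i j).2.2 l) (min_le_left _ _))
          (w.adicCompletion K) φ hE θ' hj
        exact hm₁ i (w.adicCompletion K) φ hE θ' θ'' hθ'' hd'
          (hUPS _ Pv Dv (A i) hPvm (hA i) (w.adicCompletion K) φ θ'' hθ'')
      have hfin := hm₂ (w.adicCompletion K) φ hE (ic w θ) θ' hθ' hd hsplit'
      change TI (ft (P.map ((ic w).comp (algebraMap k K))) (D.map ((ic w).comp (algebraMap k K)))
        (ic w θ)) 3
      rw [← hcomp, ← Polynomial.map_map, ← Polynomial.map_map]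
      exact hfin
  · intro j
    obtain ⟨hmul, hpm⟩ := hTHM k (L j) D (e j) (Sum.inl v) (heD j)
    -- the symbols of a product
    have hone : th D (e j) (Sum.inl v) 1 = 1 := by
      have h1 := hmul 1 1 (by rw [map_one]; exact one_ne_zero) (by rw [map_one]; exact one_ne_zero)
      rw [one_mul] at h1
      rcases hpm 1 (by rw [map_one]; exact one_ne_zero) with h2 | h2
      · exact h2
      · rw [h2] at h1; norm_num at h1
    have hprodn : ∀ (κ : Type) (s : Finset κ) (F : κ → k[X]), (∀ i ∈ s, aeval (e j) (F i) ≠ 0) →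
        th D (e j) (Sum.inl v) (∏ i ∈ s, F i) = ∏ i ∈ s, th D (e j) (Sum.inl v) (F i) ∧
        aeval (e j) (∏ i ∈ s, F i) ≠ 0 := by
      intro κ s F
      induction s using Finset.induction_on with
      | empty => intro _; exact ⟨by simpa using hone, by simp⟩
      | insert a s ha ih =>
        intro h
        obtain ⟨h1, h2⟩ := ih fun i hi => h i (Finset.mem_insert_of_mem hi)
        rw [Finset.prod_insert ha, Finset.prod_insert ha]
        refine ⟨?_, ?_⟩
        · rw [hmul _ _ (h a (Finset.mem_insert_self a s)) h2, h1]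
        · rw [map_mul]; exact mul_ne_zero (h a (Finset.mem_insert_self a s)) h2
    have hin := fun i => hprodn (Fin m) Finset.univ (B i) fun l _ => hev j (B i l) (hBP i l)
    rw [hG, (hprodn (Fin n) Finset.univ (fun i => ∏ l, B i l) fun i _ => (hin i).2).1, hx j]
    refine Finset.prod_congr rfl fun i _ => ?_
    rw [(hin i).1]
    have hval : ∀ l, th D (e j) (Sum.inl v) (B i l) =
        hpr ((Pj j).map (ic v)) (A i) (D.map (ic v)) := by
      intro l
      rw [hADF k (L j) (Pj j) D (e j) v (B i l) (hPj j).1 (hPj j).2.1]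
      exact hn₀ i j _ (by rw [(hB i l).1.natDegree_map, (hB i l).2.1]) fun l' =>
        lt_of_lt_of_le (lt_of_lt_of_le ((hB i l).2.2 l') (min_le_right _ _)) (hε₂' i j)
    rw [Finset.prod_congr rfl fun l _ => hval l, Finset.prod_const, Finset.card_univ,
      Fintype.card_fin]
    refine pow_sign ?_ hm
    rw [← hval ⟨0, hm.pos⟩]
    exact hpm _ (hev j _ (hBP i _))

end Pool.Agent.H34.N6W
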