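import Mathlib

/-!
# Selection of local data: affine subspaces over the field with two elements
-/

set_option autoImplicit false

open Finset Matrix

namespace Pool.Agent.H34.N6W

/-- a set closed under sums of three, such that each vector of a subspace is orthogonal to a
member of it, has a member orthogonal to the subspace -/
theorem sel0 {ι : Type} [Fintype ι] [DecidableEq ι] (Z : Set (ι → ZMod 2)) (z0 : ι → ZMod 2)
    (hz0 : z0 ∈ Z) (h3 : ∀ x ∈ Z, ∀ y ∈ Z, ∀ z ∈ Z, x + y + z ∈ Z)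
    (W : Submodule (ZMod 2) (ι → ZMod 2))
    (h : ∀ s ∈ W, ∃ x ∈ Z, s ⬝ᵥ x = 0) : ∃ x ∈ Z, ∀ s ∈ W, s ⬝ᵥ x = 0 := by
  classical
  -- the direction of the affine subspace
  have h2 : ∀ x : ι → ZMod 2, x + x = 0 := fun x => by
    funext i; simp only [Pi.add_apply, Pi.zero_apply]; exact CharTwo.add_self_eq_zero _
  have hc : ∀ c : ZMod 2, c = 0 ∨ c = 1 := by decide
  let V : Submodule (ZMod 2) (ι → ZMod 2) :=
    { carrier := {x | x + z0 ∈ Z}
      add_mem' := by
        intro a b ha hb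
        have h := h3 _ ha _ hb _ hz0
        have e : a + z0 + (b + z0) + z0 = a + b + z0 := by
          calc a + z0 + (b + z0) + z0 = a + b + (z0 + z0) + z0 := by abel
            _ = a + b + z0 := by rw [h2 z0, add_zero]
        rw [e] at h
        exact h
      zero_mem' := by
        change 0 + z0 ∈ Z
        rw [zero_add]; exact hz0
      smul_mem' := by
        intro c x hx
        change c • x + z0 ∈ Z
        rcases hc c with rfl | rfl
        · rw [zero_smul, zero_add]; exact hz0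
        · rw [one_smul]; exact hx }
  have hV : ∀ x, x ∈ V ↔ x + z0 ∈ Z := fun x => Iff.rfl
  -- evaluation on the subspace
  let φ : (ι → ZMod 2) →ₗ[ZMod 2] Module.Dual (ZMod 2) W :=
    { toFun := fun x =>
        { toFun := fun s => (s : ι → ZMod 2) ⬝ᵥ x
          map_add' := fun s t => by
            rw [Submodule.coe_add, add_dotProduct]
          map_smul' := fun c s => by
            rw [Submodule.coe_smul, smul_dotProduct]; rfl }
      map_add' := fun x y => by
        ext s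
        exact dotProduct_add _ _ _
      map_smul' := fun c x => by
        ext s
        exact dotProduct_smul _ _ _ }
  have hφ : ∀ x (s : W), φ x s = (s : ι → ZMod 2) ⬝ᵥ x := fun x s => rfl
  by_cases hm : φ z0 ∈ V.map φ
  · obtain ⟨v, hv, hv2⟩ := hm
    refine ⟨v + z0, (hV v).1 hv, fun s hs => ?_⟩
    have h1 : φ (v + z0) = 0 := by
      rw [map_add, hv2, ← map_add, h2, map_zero]
    have h3 := hφ (v + z0) ⟨s, hs⟩
    rw [h1] at h3
    exact h3.symm
  · exfalso
    obtain ⟨f, hf1, hf2⟩ := Submodule.exists_le_ker_of_notMem hm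
    obtain ⟨w, hw⟩ := (Module.evalEquiv (ZMod 2) W).surjective f
    obtain ⟨x, hx, hx2⟩ := h w.1 w.2
    have h4 : f (φ x) = 0 := by
      rw [← hw]
      exact hx2
    have h5 : x + z0 ∈ V := by
      rw [hV, add_assoc, h2, add_zero]; exact hx
    have h6 : f (φ (x + z0)) = 0 := hf2 ⟨_, h5, rfl⟩
    rw [map_add, map_add, h4, zero_add] at h6
    exact hf1 h6

/-- selection in a finite family of sets closed under sums of three -/
theorem sel {ι V : Type} [Fintype ι] [DecidableEq ι] [DecidableEq V] (S : Finset V)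
    (Z : V → Set (ι → ZMod 2)) (hne : ∀ v ∈ S, (Z v).Nonempty)
    (h3 : ∀ v ∈ S, ∀ x ∈ Z v, ∀ y ∈ Z v, ∀ z ∈ Z v, x + y + z ∈ Z v)
    (W : Submodule (ZMod 2) (ι → ZMod 2))
    (h : ∀ s ∈ W, ∃ x : V → ι → ZMod 2, (∀ v ∈ S, x v ∈ Z v) ∧ ∑ v ∈ S, s ⬝ᵥ x v = 0) :
    ∃ x : V → ι → ZMod 2, (∀ v ∈ S, x v ∈ Z v) ∧ ∀ s ∈ W, ∑ v ∈ S, s ⬝ᵥ x v = 0 := by
  classical
  let Z' : Set (ι → ZMod 2) := {y | ∃ x : V → ι → ZMod 2, (∀ v ∈ S, x v ∈ Z v) ∧
    ∑ v ∈ S, x v = y}
  have hd : ∀ (s : ι → ZMod 2) (x : V → ι → ZMod 2),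
      s ⬝ᵥ (∑ v ∈ S, x v) = ∑ v ∈ S, s ⬝ᵥ x v := fun s x => dotProduct_sum _ _ _
  obtain ⟨y, ⟨x, hx1, hx2⟩, hy⟩ := sel0 Z' (∑ v ∈ S, (if hv : v ∈ S then (hne v hv).some else 0))
    ⟨fun v => if hv : v ∈ S then (hne v hv).some else 0, fun v hv => by
      simp only [dif_pos hv]; exact (hne v hv).some_mem, rfl⟩
    (by
      rintro _ ⟨a, ha, rfl⟩ _ ⟨b, hb, rfl⟩ _ ⟨c, hc, rfl⟩
      exact ⟨fun v => a v + b v + c v, fun v hv => h3 v hv _ (ha v hv) _ (hb v hv) _ (hc v hv), by
        rw [Finset.sum_add_distrib, Finset.sum_add_distrib]⟩)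
    W (by
      intro s hs
      obtain ⟨x, hx1, hx2⟩ := h s hs
      exact ⟨_, ⟨x, hx1, rfl⟩, by rw [hd]; exact hx2⟩)
  exact ⟨x, hx1, fun s hs => by rw [← hd, hx2]; exact hy s hs⟩

/-- the sign of a class modulo two -/
def sg2 (a : ZMod 2) : ℤ := (-1) ^ a.val

theorem sg2_add : ∀ a b : ZMod 2, sg2 (a + b) = sg2 a * sg2 b := by decide

theorem sg2_zero : sg2 0 = 1 := by decide

theorem sg2_eq_one : ∀ a : ZMod 2, sg2 a = 1 → a = 0 := by decide

theorem sg2_sum {κ : Type} (s : Finset κ) (f : κ → ZMod 2) :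
    sg2 (∑ j ∈ s, f j) = ∏ j ∈ s, sg2 (f j) := by
  classical
  induction s using Finset.induction_on with
  | empty => simp [sg2_zero]
  | insert a s ha ih => rw [Finset.sum_insert ha, Finset.prod_insert ha, sg2_add, ih]

theorem sg2_surj (x : ℤ) (hx : x = 1 ∨ x = -1) : ∃ a : ZMod 2, sg2 a = x := by
  rcases hx with rfl | rfl
  · exact ⟨0, by decide⟩
  · exact ⟨1, by decide⟩

/-- selection of signs -/
theorem selS {ι V : Type} [Fintype ι] [DecidableEq ι] [DecidableEq V] (S : Finset V)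
    (Z : V → Set (ι → ℤ)) (h1 : ∀ v ∈ S, ∀ x ∈ Z v, ∀ j, x j = 1 ∨ x j = -1)
    (hne : ∀ v ∈ S, (Z v).Nonempty)
    (h3 : ∀ v ∈ S, ∀ x ∈ Z v, ∀ y ∈ Z v, ∀ z ∈ Z v, x * y * z ∈ Z v)
    (R : Set (Finset ι)) (hR0 : ∅ ∈ R) (hR : ∀ s ∈ R, ∀ t ∈ R, symmDiff s t ∈ R)
    (h : ∀ s ∈ R, ∃ x : V → ι → ℤ, (∀ v ∈ S, x v ∈ Z v) ∧ ∏ v ∈ S, ∏ j ∈ s, x v j = 1) :
    ∃ x : V → ι → ℤ, (∀ v ∈ S, x v ∈ Z v) ∧ ∀ s ∈ R, ∏ v ∈ S, ∏ j ∈ s, x v j = 1 := by
  classical
  have hc : ∀ c : ZMod 2, c = 0 ∨ c = 1 := by decide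
  -- lifts
  have hlift : ∀ x : ι → ℤ, (∀ j, x j = 1 ∨ x j = -1) →
      ∃ z : ι → ZMod 2, (fun j => sg2 (z j)) = x := by
    intro x hx
    choose z hz using fun j => sg2_surj (x j) (hx j)
    exact ⟨z, funext hz⟩
  let Z' : V → Set (ι → ZMod 2) := fun v => {z | (fun j => sg2 (z j)) ∈ Z v}
  let W : Submodule (ZMod 2) (ι → ZMod 2) :=
    { carrier := {w | Finset.univ.filter (fun j => w j = 1) ∈ R}
      add_mem' := by
        intro a b ha hb
        have h := hR _ ha _ hb
        have e : symmDiff (Finset.univ.filter (fun j => a j = 1))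
            (Finset.univ.filter (fun j => b j = 1)) =
            Finset.univ.filter (fun j => (a + b) j = 1) := by
          ext j
          simp only [Finset.mem_symmDiff, Finset.mem_filter, Finset.mem_univ, true_and,
            Pi.add_apply]
          have : ∀ x y : ZMod 2, (x = 1 ∧ ¬ y = 1 ∨ y = 1 ∧ ¬ x = 1) ↔ x + y = 1 := by decide
          exact this _ _
        rw [e] at h
        exact h
      zero_mem' := by
        change Finset.univ.filter (fun j => (0 : ι → ZMod 2) j = 1) ∈ R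
        have e : Finset.univ.filter (fun j => (0 : ι → ZMod 2) j = 1) = ∅ := by
          ext j; simp
        rw [e]; exact hR0
      smul_mem' := by
        intro c x hx
        rcases hc c with rfl | rfl
        · change Finset.univ.filter (fun j => ((0 : ZMod 2) • x) j = 1) ∈ R
          have e : Finset.univ.filter (fun j => ((0 : ZMod 2) • x) j = 1) = ∅ := by
            ext j; simp
          rw [e]; exact hR0
        · rw [one_smul]; exact hx }
  have hW : ∀ w : ι → ZMod 2, w ∈ W ↔ Finset.univ.filter (fun j => w j = 1) ∈ R :=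
    fun w => Iff.rfl
  -- the dot product
  have hdot : ∀ (w x : ι → ZMod 2),
      w ⬝ᵥ x = ∑ j ∈ Finset.univ.filter (fun j => w j = 1), x j := by
    intro w x
    rw [Finset.sum_filter]
    refine Finset.sum_congr rfl fun j _ => ?_
    rcases hc (w j) with e | e
    · rw [e]; simp
    · rw [e]; simp
  have hsg : ∀ (w : ι → ZMod 2) (z : V → ι → ZMod 2),
      sg2 (∑ v ∈ S, w ⬝ᵥ z v) =
        ∏ v ∈ S, ∏ j ∈ Finset.univ.filter (fun j => w j = 1), sg2 (z v j) := by
    intro w z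
    rw [sg2_sum]
    refine Finset.prod_congr rfl fun v _ => ?_
    rw [hdot, sg2_sum]
  obtain ⟨z, hz1, hz2⟩ := sel S Z' (fun v hv => by
      obtain ⟨x, hx⟩ := hne v hv
      obtain ⟨z, hz⟩ := hlift x (h1 v hv x hx)
      exact ⟨z, by change (fun j => sg2 (z j)) ∈ Z v; rw [hz]; exact hx⟩)
    (fun v hv x hx y hy z hz => by
      have h := h3 v hv _ hx _ hy _ hz
      have e : (fun j => sg2 (x j)) * (fun j => sg2 (y j)) * (fun j => sg2 (z j)) =
          fun j => sg2 ((x + y + z) j) := by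
        funext j
        simp only [Pi.mul_apply, Pi.add_apply, sg2_add]
      rw [e] at h
      exact h)
    W (fun w hw => by
      obtain ⟨x, hx1, hx2⟩ := h _ ((hW w).1 hw)
      choose z hz using fun v : V => fun j : ι =>
        (show ∃ a : ZMod 2, v ∈ S → sg2 a = x v j by
          by_cases hv : v ∈ S
          · obtain ⟨a, ha⟩ := sg2_surj (x v j) (h1 v hv _ (hx1 v hv) j)
            exact ⟨a, fun _ => ha⟩
          · exact ⟨0, fun h => absurd h hv⟩)
      refine ⟨z, fun v hv => ?_, ?_⟩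
      · change (fun j => sg2 (z v j)) ∈ Z v
        rw [show (fun j => sg2 (z v j)) = x v from funext fun j => hz v j hv]
        exact hx1 v hv
      · apply sg2_eq_one
        rw [hsg, ← hx2]
        refine Finset.prod_congr rfl fun v hv => Finset.prod_congr rfl fun j _ => ?_
        exact hz v j hv)
  refine ⟨fun v j => sg2 (z v j), fun v hv => hz1 v hv, fun s hs => ?_⟩
  have hw : (fun j => if j ∈ s then (1 : ZMod 2) else 0) ∈ W := by
    rw [hW]
    have e : Finset.univ.filter (fun j => (if j ∈ s then (1 : ZMod 2) else 0) = 1) = s := by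
      ext j; simp
    rw [e]; exact hs
  have h := hz2 _ hw
  have h' := hsg (fun j => if j ∈ s then (1 : ZMod 2) else 0) z
  have e : Finset.univ.filter (fun j => (if j ∈ s then (1 : ZMod 2) else 0) = 1) = s := by
    ext j; simp
  rw [h, sg2_zero, e] at h'
  exact h'.symm

end Pool.Agent.H34.N6W
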