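import Pool.Agent.H32.SAB.TargetsT
import Pool.Agent.H34.N6.Defs

/-!
# Two quadrics in `ℙ⁶`: smooth intersections lie on a nonsingular quadric

Reduction of the Hasse principle for all smooth intersections to the case in which the second
quadric is nonsingular.
-/

set_option autoImplicit false

open Polynomial NumberField IsDedekindDomain Matrix

namespace Pool.Agent.H34.N6W

open Pool.Agent.H32.SAB (hes T_HES)

/-- a singular pencil has a singular zero in its base locus -/
theorem singular_pencil {K : Type} [Field K] [Infinite K] {n : ℕ}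
    (A B : Matrix (Fin n) (Fin n) K) (hA : A.IsSymm) (hB : B.IsSymm)
    (hdet : (A.map (C : K →+* K[X]) - (X : K[X]) • B.map (C : K →+* K[X])).det = 0) :
    ∃ (x : Fin n → K) (t : K), x ≠ 0 ∧ A *ᵥ x = t • (B *ᵥ x) ∧ x ⬝ᵥ (A *ᵥ x) = 0 ∧
      x ⬝ᵥ (B *ᵥ x) = 0 := by
  classical
  set M : Matrix (Fin n) (Fin n) K[X] :=
    A.map (C : K →+* K[X]) - (X : K[X]) • B.map (C : K →+* K[X]) with hM
  have hMs : Mᵀ = M := by
    rw [hM, transpose_sub, transpose_smul, ← transpose_map, ← transpose_map, hA.eq, hB.eq]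
  obtain ⟨v, hv0, hv⟩ := Matrix.exists_mulVec_eq_zero_iff.2 hdet
  -- the derivative
  let v' : Fin n → K[X] := fun i => derivative (v i)
  have hMe : ∀ i j, M i j = C (A i j) - X * C (B i j) := fun i j => rfl
  have h1 : M *ᵥ v' = B.map (C : K →+* K[X]) *ᵥ v := by
    funext i
    have h2 : ∑ j, M i j * v j = 0 := congrFun hv i
    have h3 := congrArg derivative h2
    rw [derivative_sum, derivative_zero] at h3
    have h4 : ∀ j, derivative (M i j * v j) = -(C (B i j) * v j) + M i j * derivative (v j) := by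
      intro j
      rw [derivative_mul, hMe, derivative_sub, derivative_C, derivative_mul, derivative_X,
        derivative_C]
      ring
    rw [Finset.sum_congr rfl fun j _ => h4 j, Finset.sum_add_distrib,
      Finset.sum_neg_distrib] at h3
    change ∑ j, M i j * derivative (v j) = ∑ j, C (B i j) * v j
    linear_combination h3
  have hBv : v ⬝ᵥ (B.map (C : K →+* K[X]) *ᵥ v) = 0 := by
    rw [← h1, dotProduct_mulVec, ← mulVec_transpose, hMs, hv, zero_dotProduct]
  have hAM : A.map (C : K →+* K[X]) = M + (X : K[X]) • B.map (C : K →+* K[X]) := by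
    rw [hM]; abel
  have hAv : v ⬝ᵥ (A.map (C : K →+* K[X]) *ᵥ v) = 0 := by
    rw [hAM, add_mulVec, hv, zero_add, smul_mulVec, dotProduct_smul, hBv, smul_zero]
  -- a value
  obtain ⟨i, hi⟩ : ∃ i, v i ≠ 0 := by
    by_contra h
    push Not at h
    exact hv0 (funext h)
  obtain ⟨t, ht⟩ : ∃ t : K, eval t (v i) ≠ 0 := by
    by_contra h
    push Not at h
    exact hi (Polynomial.funext fun r => by rw [h r, eval_zero])
  have hev : ∀ (D : Matrix (Fin n) (Fin n) K) (i : Fin n),
      eval t ((D.map (C : K →+* K[X]) *ᵥ v) i) = (D *ᵥ fun j => eval t (v j)) i := by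
    intro D i
    change eval t (∑ j, C (D i j) * v j) = ∑ j, D i j * eval t (v j)
    rw [eval_finsetSum]
    exact Finset.sum_congr rfl fun j _ => by rw [eval_mul, eval_C]
  have hdot : ∀ w : Fin n → K[X], eval t (v ⬝ᵥ w) = (fun j => eval t (v j)) ⬝ᵥ
      fun j => eval t (w j) := by
    intro w
    change eval t (∑ j, v j * w j) = ∑ j, eval t (v j) * eval t (w j)
    rw [eval_finsetSum]
    exact Finset.sum_congr rfl fun j _ => by rw [eval_mul]
  refine ⟨fun j => eval t (v j), t, fun h => ht (congrFun h i), ?_, ?_, ?_⟩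
  · funext i
    have h2 : (A.map (C : K →+* K[X]) *ᵥ v) i =
        X * (B.map (C : K →+* K[X]) *ᵥ v) i := by
      rw [hAM, add_mulVec, hv, zero_add, smul_mulVec]
      rfl
    have h3 := congrArg (eval t) h2
    rw [hev, eval_mul, eval_X, hev] at h3
    exact h3
  · have h2 := congrArg (eval t) hAv
    rw [hdot, eval_zero] at h2
    rw [← h2]
    congr 1
    funext i
    exact (hev A i).symm
  · have h2 := congrArg (eval t) hBv
    rw [hdot, eval_zero] at h2
    rw [← h2]
    congr 1
    funext i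
    exact (hev B i).symm

theorem hes_sub {K : Type} [Field K] {n : ℕ} (f g : MvPolynomial (Fin n) K) (c : K) :
    hes (f - MvPolynomial.C c * g) = hes f - c • hes g := by
  ext i j
  simp only [hes, Matrix.of_apply, Matrix.sub_apply, Matrix.smul_apply, map_sub, smul_eq_mul,
    MvPolynomial.coeff_sub, MvPolynomial.pderiv_C_mul, MvPolynomial.coeff_C_mul]

/-- the pencil of a nonsingular second member has degree `n` -/
theorem natDegree_det {K : Type} [Field K] {n : ℕ} (A B : Matrix (Fin n) (Fin n) K)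
    (hB : B.det ≠ 0) :
    (A.map (C : K →+* K[X]) - (X : K[X]) • B.map (C : K →+* K[X])).det.natDegree = n := by
  have h1 : A.map (C : K →+* K[X]) - (X : K[X]) • B.map (C : K →+* K[X]) =
      (X : K[X]) • (-B).map (C : K →+* K[X]) + A.map (C : K →+* K[X]) := by
    ext i j : 2
    simp only [Matrix.sub_apply, Matrix.add_apply, Matrix.smul_apply, Matrix.map_apply,
      Matrix.neg_apply, map_neg, smul_eq_mul, mul_neg]
    rw [sub_eq_add_neg, add_comm]
  rw [h1]
  have h2 := natDegree_det_X_add_C_le (-B) A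
  have h3 := coeff_det_X_add_C_card (-B) A
  rw [Fintype.card_fin] at h2 h3
  refine le_antisymm h2 (le_natDegree_of_ne_zero ?_)
  rw [h3, det_neg]
  exact mul_ne_zero (pow_ne_zero _ (neg_ne_zero.2 one_ne_zero)) hB

theorem red (hHES : T_HES)
    (H : ∀ (K : Type) [Field K] [NumberField K] (f₁ f₂ : MvPolynomial (Fin 7) K),
      f₁.IsHomogeneous 2 → f₂.IsHomogeneous 2 →
      ((hes f₁).map (C : K →+* K[X]) -
        (X : K[X]) • (hes f₂).map (C : K →+* K[X])).det.natDegree = 7 →
      (∀ x : Fin 7 → AlgebraicClosure K, x ≠ 0 →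
        MvPolynomial.eval₂ (algebraMap K (AlgebraicClosure K)) x f₁ = 0 →
        MvPolynomial.eval₂ (algebraMap K (AlgebraicClosure K)) x f₂ = 0 →
        LinearIndependent (AlgebraicClosure K)
          ![fun i => MvPolynomial.eval₂ (algebraMap K (AlgebraicClosure K)) x
              (MvPolynomial.pderiv i f₁),
            fun i => MvPolynomial.eval₂ (algebraMap K (AlgebraicClosure K)) x
              (MvPolynomial.pderiv i f₂)]) →
      (∀ φ : K →+* ℝ, ∃ x : Fin 7 → ℝ, x ≠ 0 ∧
        MvPolynomial.eval₂ φ x f₁ = 0 ∧ MvPolynomial.eval₂ φ x f₂ = 0) →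
      (∀ v : HeightOneSpectrum (𝓞 K), ∃ x : Fin 7 → v.adicCompletion K, x ≠ 0 ∧
        MvPolynomial.eval₂ (algebraMap K (v.adicCompletion K)) x f₁ = 0 ∧
        MvPolynomial.eval₂ (algebraMap K (v.adicCompletion K)) x f₂ = 0) →
      ∃ x : Fin 7 → K, x ≠ 0 ∧ MvPolynomial.eval x f₁ = 0 ∧ MvPolynomial.eval x f₂ = 0)
    (K : Type) [Field K] [NumberField K] (f₁ f₂ : MvPolynomial (Fin 7) K)
    (h1 : f₁.IsHomogeneous 2) (h2 : f₂.IsHomogeneous 2)
    (hsm : ∀ x : Fin 7 → AlgebraicClosure K, x ≠ 0 →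
      MvPolynomial.eval₂ (algebraMap K (AlgebraicClosure K)) x f₁ = 0 →
      MvPolynomial.eval₂ (algebraMap K (AlgebraicClosure K)) x f₂ = 0 →
      LinearIndependent (AlgebraicClosure K)
        ![fun i => MvPolynomial.eval₂ (algebraMap K (AlgebraicClosure K)) x
            (MvPolynomial.pderiv i f₁),
          fun i => MvPolynomial.eval₂ (algebraMap K (AlgebraicClosure K)) x
            (MvPolynomial.pderiv i f₂)])
    (hR : ∀ φ : K →+* ℝ, ∃ x : Fin 7 → ℝ, x ≠ 0 ∧
      MvPolynomial.eval₂ φ x f₁ = 0 ∧ MvPolynomial.eval₂ φ x f₂ = 0)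
    (hF : ∀ v : HeightOneSpectrum (𝓞 K), ∃ x : Fin 7 → v.adicCompletion K, x ≠ 0 ∧
      MvPolynomial.eval₂ (algebraMap K (v.adicCompletion K)) x f₁ = 0 ∧
      MvPolynomial.eval₂ (algebraMap K (v.adicCompletion K)) x f₂ = 0) :
    ∃ x : Fin 7 → K, x ≠ 0 ∧ MvPolynomial.eval x f₁ = 0 ∧ MvPolynomial.eval x f₂ = 0 := by
  classical
  have h2K : (2 : K) ≠ 0 := two_ne_zero
  obtain ⟨hAs, hAv⟩ := hHES K 7 f₁ h1
  obtain ⟨hBs, hBv⟩ := hHES K 7 f₂ h2
  -- some member is nonsingular
  have hdet : ((hes f₁).map (C : K →+* K[X]) -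
      (X : K[X]) • (hes f₂).map (C : K →+* K[X])).det ≠ 0 := by
    intro h0
    obtain ⟨x, t, hx0, hxt, hxA, hxB⟩ := singular_pencil (hes f₁) (hes f₂) hAs hBs h0
    set φ : K →+* AlgebraicClosure K := algebraMap K (AlgebraicClosure K) with hφ
    have h2E : (2 : AlgebraicClosure K) ≠ 0 := two_ne_zero
    have hmul : ∀ D : Matrix (Fin 7) (Fin 7) K,
        D.map φ *ᵥ (fun i => φ (x i)) = fun i => φ ((D *ᵥ x) i) := by
      intro D
      funext i
      change ∑ j, φ (D i j) * φ (x j) = φ (∑ j, D i j * x j)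
      rw [map_sum]
      exact Finset.sum_congr rfl fun j _ => (map_mul φ _ _).symm
    have hdot : ∀ w : Fin 7 → K, (fun i => φ (x i)) ⬝ᵥ (fun i => φ (w i)) = φ (x ⬝ᵥ w) := by
      intro w
      change ∑ j, φ (x j) * φ (w j) = φ (∑ j, x j * w j)
      rw [map_sum]
      exact Finset.sum_congr rfl fun j _ => (map_mul φ _ _).symm
    have hxE : (fun i => φ (x i)) ≠ 0 := by
      intro h
      apply hx0
      funext i
      exact φ.injective (by rw [Pi.zero_apply, map_zero]; exact congrFun h i)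
    have hf1 : MvPolynomial.eval₂ φ (fun i => φ (x i)) f₁ = 0 := by
      have h3 := (hAv _ φ fun i => φ (x i)).1
      rw [hmul, hdot, hxA, map_zero] at h3
      exact (mul_eq_zero.1 h3.symm).resolve_left h2E
    have hf2 : MvPolynomial.eval₂ φ (fun i => φ (x i)) f₂ = 0 := by
      have h3 := (hBv _ φ fun i => φ (x i)).1
      rw [hmul, hdot, hxB, map_zero] at h3
      exact (mul_eq_zero.1 h3.symm).resolve_left h2E
    have hli := hsm _ hxE hf1 hf2
    rw [LinearIndependent.pair_iff] at hli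
    have h4 := hli 1 (-φ t) (by
      funext i
      have h5 := (hAv _ φ fun i => φ (x i)).2 i
      have h6 := (hBv _ φ fun i => φ (x i)).2 i
      rw [hmul] at h5 h6
      simp only [Pi.add_apply, Pi.smul_apply, smul_eq_mul, Pi.zero_apply]
      rw [← h5, ← h6]
      have h7 : φ ((hes f₁ *ᵥ x) i) = φ t * φ ((hes f₂ *ᵥ x) i) := by
        rw [← map_mul, congrFun hxt i]; rfl
      change 1 * φ ((hes f₁ *ᵥ x) i) + -φ t * φ ((hes f₂ *ᵥ x) i) = 0
      rw [h7]; ring)
    exact one_ne_zero h4.1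
  obtain ⟨c, hc⟩ : ∃ c : K, eval c ((hes f₁).map (C : K →+* K[X]) -
      (X : K[X]) • (hes f₂).map (C : K →+* K[X])).det ≠ 0 := by
    by_contra h
    push Not at h
    exact hdet (Polynomial.funext fun r => by rw [h r, eval_zero])
  have hcd : (hes f₁ - c • hes f₂).det ≠ 0 := by
    have h3 : eval c ((hes f₁).map (C : K →+* K[X]) -
        (X : K[X]) • (hes f₂).map (C : K →+* K[X])).det = (hes f₁ - c • hes f₂).det := by
      rw [← coe_evalRingHom, RingHom.map_det]
      congr 1
      ext i j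
      simp [Matrix.map_apply, Matrix.sub_apply, Matrix.smul_apply]
      exact mul_comm _ _
    rw [← h3]; exact hc
  have hhom : (f₁ - MvPolynomial.C c * f₂).IsHomogeneous 2 := h1.sub (h2.C_mul c)
  have hev2 : ∀ (E : Type) [Field E] (φ : K →+* E) (x : Fin 7 → E),
      MvPolynomial.eval₂ φ x (f₁ - MvPolynomial.C c * f₂) =
        MvPolynomial.eval₂ φ x f₁ - φ c * MvPolynomial.eval₂ φ x f₂ := by
    intro E _ φ x
    rw [MvPolynomial.eval₂_sub, MvPolynomial.eval₂_mul, MvPolynomial.eval₂_C]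
  obtain ⟨x, hx0, hx2, hx1⟩ := H K f₂ (f₁ - MvPolynomial.C c * f₂) h2 hhom
    (by rw [hes_sub]; exact natDegree_det _ _ hcd)
    (by
      intro x hx0 hx2 hx1
      rw [hev2, hx2, mul_zero, sub_zero] at hx1
      have hli := hsm x hx0 hx1 hx2
      rw [LinearIndependent.pair_iff] at hli ⊢
      intro s t hst
      have h3 := hli t (s - algebraMap K (AlgebraicClosure K) c * t) (by
        funext i
        have h4 := congrFun hst i
        simp only [Pi.add_apply, Pi.smul_apply, smul_eq_mul, Pi.zero_apply, map_sub,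
          MvPolynomial.pderiv_C_mul, MvPolynomial.eval₂_sub,
          MvPolynomial.eval₂_mul, MvPolynomial.eval₂_C] at h4 ⊢
        linear_combination h4)
      obtain ⟨h4, h5⟩ := h3
      rw [h4, mul_zero, sub_zero] at h5
      exact ⟨h5, h4⟩)
    (by
      intro φ
      obtain ⟨x, hx0, hx1, hx2⟩ := hR φ
      exact ⟨x, hx0, hx2, by rw [hev2, hx1, hx2, mul_zero, sub_zero]⟩)
    (by
      intro v
      obtain ⟨x, hx0, hx1, hx2⟩ := hF v
      exact ⟨x, hx0, hx2, by rw [hev2, hx1, hx2, mul_zero, sub_zero]⟩)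
  refine ⟨x, hx0, ?_, hx2⟩
  rw [map_sub, map_mul, hx2, mul_zero, sub_zero] at hx1
  exact hx1

end Pool.Agent.H34.N6W
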