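import Pool.Agent.H32.N6W.Targets
import Pool.Agent.H34.N6W.Sel

/-!
# Row W1: choice of the signs
-/

set_option autoImplicit false

namespace Pool.Agent.H34.N6W

open Pool.Agent.H32.N6W

theorem pf_SEL : T_SEL := by
  classical
  intro ι V _ _ S A I q h1 hne h3 h0 hI hq h
  obtain ⟨x, hx1, hx2⟩ := selS S A h1 hne (fun v hv x hx y hy z hz => h3 v hv x hx y hy z hz)
    I h0 hI (fun s hs => by
      choose x hx using fun v : V => show ∃ x : ι → ℤ, v ∈ S → x ∈ A v ∧ ∏ j ∈ s, x j = q v s by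
        by_cases hv : v ∈ S
        · obtain ⟨x, hx, hx'⟩ := h s hs v hv
          exact ⟨x, fun _ => ⟨hx, hx'⟩⟩
        · exact ⟨fun _ => 1, fun h => absurd h hv⟩
      refine ⟨x, fun v hv => (hx v hv).1, ?_⟩
      rw [← hq s hs]
      exact Finset.prod_congr rfl fun v hv => (hx v hv).2)
  exact ⟨x, hx1, hx2⟩

end Pool.Agent.H34.N6W
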